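import Mathlib

/-!
# Project PI, leaf BASE (helper628): the algebra of base change of unramified extensions
-/

set_option autoImplicit false
set_option linter.all false

open Polynomial

namespace Pool.Agent.N628.PI

section

variable {OA OB OD O κA κB κD κ : Type} [CommRing OA] [CommRing OB] [CommRing OD] [CommRing O]
  [Field κA] [Field κB] [Field κD] [Field κ] [Algebra κA κB] [Algebra κA κD] [Algebra κB κ]
  [Algebra κD κ] [Algebra κA κ] [IsScalarTower κA κB κ] [IsScalarTower κA κD κ]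
  (iAB : OA →+* OB) (iAD : OA →+* OD) (iB : OB →+* O) (iD : OD →+* O)
  (rA : OA →+* κA) (rB : OB →+* κB) (rD : OD →+* κD) (r : O →+* κ)

/-- evaluation in the compositum -/
theorem eval_mem (p : OD[X]) (θ : OB) : p.eval₂ iD (iB θ) ∈ iD.range ⊔ iB.range := by
  rw [eval₂_eq_sum_range]
  refine Subring.sum_mem _ fun i _ => Subring.mul_mem _ ?_ (Subring.pow_mem _ ?_ i)
  · exact (le_sup_left : iD.range ≤ iD.range ⊔ iB.range) ⟨_, rfl⟩
  · exact (le_sup_right : iB.range ≤ iD.range ⊔ iB.range) ⟨_, rfl⟩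

theorem eval_res (hB : ∀ x, r (iB x) = algebraMap κB κ (rB x))
    (hD : ∀ x, r (iD x) = algebraMap κD κ (rD x)) (p : OD[X]) (θ : OB) :
    r (p.eval₂ iD (iB θ)) = aeval (algebraMap κB κ (rB θ)) (p.map rD) := by
  rw [hom_eval₂, aeval_def, eval₂_map, hB]
  congr 1
  ext x
  exact hD x

variable {iAB iAD iB iD rA rB rD r}

theorem form (hcomm : ∀ x, iB (iAB x) = iD (iAD x))
    (sAB : ∀ x, rB (iAB x) = algebraMap κA κB (rA x))
    (sAD : ∀ x, rD (iAD x) = algebraMap κA κD (rA x))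
    (hrA : Function.Surjective rA) {u : OA} (hu : rA u = 0) {v : OD}
    (kB : ∀ x, rB x = 0 → ∃ y, x = iAB u * y) (kD : ∀ x, rD x = 0 → ∃ y, x = v * y)
    {θ : OB} (hθ : ∀ β : κB, ∃ a : κA[X], aeval (rB θ) a = β) {z : O}
    (hz : z ∈ iD.range ⊔ iB.range) :
    ∃ p : OD[X], ∃ c ∈ iD.range ⊔ iB.range, z = p.eval₂ iD (iB θ) + iD v * c := by
  set C : Subring O := iD.range ⊔ iB.range with hC
  have hDC : ∀ x, iD x ∈ C := fun x => (le_sup_left : iD.range ≤ C) ⟨x, rfl⟩
  have hBC : ∀ x, iB x ∈ C := fun x => (le_sup_right : iB.range ≤ C) ⟨x, rfl⟩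
  let T : Subring O :=
    { carrier := {z | ∃ p : OD[X], ∃ c ∈ C, z = p.eval₂ iD (iB θ) + iD v * c}
      zero_mem' := ⟨0, 0, C.zero_mem, by simp⟩
      one_mem' := ⟨1, 0, C.zero_mem, by simp⟩
      add_mem' := by
        rintro _ _ ⟨p, c, hc, rfl⟩ ⟨q, d, hd, rfl⟩
        exact ⟨p + q, c + d, C.add_mem hc hd, by rw [eval₂_add]; ring⟩
      neg_mem' := by
        rintro _ ⟨p, c, hc, rfl⟩
        exact ⟨-p, -c, C.neg_mem hc, by rw [eval₂_neg]; ring⟩
      mul_mem' := by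
        rintro _ _ ⟨p, c, hc, rfl⟩ ⟨q, d, hd, rfl⟩
        refine ⟨p * q, c * q.eval₂ iD (iB θ) + p.eval₂ iD (iB θ) * d + iD v * c * d, ?_, ?_⟩
        · refine C.add_mem (C.add_mem (C.mul_mem hc (eval_mem iB iD q θ))
            (C.mul_mem (eval_mem iB iD p θ) hd)) (C.mul_mem (C.mul_mem (hDC v) hc) hd)
        · rw [eval₂_mul]; ring }
  have h1 : iD.range ≤ T := by
    rintro _ ⟨x, rfl⟩
    exact ⟨Polynomial.C x, 0, C.zero_mem, by simp⟩
  have h2 : iB.range ≤ T := by
    rintro _ ⟨b, rfl⟩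
    obtain ⟨a, ha⟩ := hθ (rB b)
    obtain ⟨A, hA⟩ := Polynomial.map_surjective rA hrA a
    have h3 : rB (A.eval₂ iAB θ) = rB b := by
      rw [hom_eval₂, ← ha, ← hA, aeval_def, eval₂_map]
      congr 1
      ext x
      exact sAB x
    obtain ⟨y, hy⟩ := kB (b - A.eval₂ iAB θ) (by rw [map_sub, h3, sub_self])
    obtain ⟨u', hu'⟩ := kD (iAD u) (by rw [sAD, hu, map_zero])
    refine ⟨A.map iAD, iD u' * iB y, C.mul_mem (hDC _) (hBC _), ?_⟩
    have h4 : b = A.eval₂ iAB θ + iAB u * y := by rw [← hy]; ring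
    have h5 : (A.map iAD).eval₂ iD (iB θ) = iB (A.eval₂ iAB θ) := by
      rw [eval₂_map, hom_eval₂]
      congr 1
      ext x
      exact (hcomm x).symm
    rw [h5, ← mul_assoc, ← map_mul, ← hu', ← hcomm, ← map_mul, ← map_add]
    rw [← h4]
  exact (sup_le h1 h2 : C ≤ T) hz

theorem star [CharZero κA] [FiniteDimensional κA κB] (hcomm : ∀ x, iB (iAB x) = iD (iAD x))
    (sAB : ∀ x, rB (iAB x) = algebraMap κA κB (rA x))
    (sAD : ∀ x, rD (iAD x) = algebraMap κA κD (rA x))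
    (sB : ∀ x, r (iB x) = algebraMap κB κ (rB x))
    (sD : ∀ x, r (iD x) = algebraMap κD κ (rD x))
    (hrA : Function.Surjective rA) (hrB : Function.Surjective rB) (hrD : Function.Surjective rD)
    {u : OA} (hu : rA u = 0) {v : OD} (hv : rD v = 0)
    (kB : ∀ x, rB x = 0 → ∃ y, x = iAB u * y) (kD : ∀ x, rD x = 0 → ∃ y, x = v * y)
    {z : O} (hz : z ∈ iD.range ⊔ iB.range) (hrz : r z = 0) :
    ∃ s ∈ iD.range ⊔ iB.range, ∃ c ∈ iD.range ⊔ iB.range, r s ≠ 0 ∧ s * z = iD v * c := by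
  obtain ⟨θ', hθ'⟩ := Field.exists_primitive_element κA κB
  obtain ⟨θ, rfl⟩ := hrB θ'
  have hint : IsIntegral κA (rB θ) := Algebra.IsIntegral.isIntegral _
  have hθ : ∀ β : κB, ∃ a : κA[X], aeval (rB θ) a = β := by
    intro β
    have h1 : β ∈ IntermediateField.adjoin κA {rB θ} := by rw [hθ']; trivial
    have h2 : β ∈ (IntermediateField.adjoin κA {rB θ}).toSubalgebra := h1
    rw [IntermediateField.adjoin_simple_toSubalgebra_of_isAlgebraic hint.isAlgebraic,
      Algebra.adjoin_singleton_eq_range_aeval] at h2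
    exact h2
  set C : Subring O := iD.range ⊔ iB.range with hC
  have hDC : ∀ x, iD x ∈ C := fun x => (le_sup_left : iD.range ≤ C) ⟨x, rfl⟩
  have hBC : ∀ x, iB x ∈ C := fun x => (le_sup_right : iB.range ≤ C) ⟨x, rfl⟩
  obtain ⟨p, c1, hc1, hz1⟩ := form hcomm sAB sAD hrA hu kB kD hθ hz
  set t : κ := algebraMap κB κ (rB θ) with ht
  have hpt : aeval t (p.map rD) = 0 := by
    rw [← eval_res iB iD rB rD r sB sD p θ]
    have h1 := congrArg r hz1
    rw [hrz, map_add, map_mul, sD v, hv, map_zero, zero_mul, add_zero] at h1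
    exact h1.symm
  have hintt : IsIntegral κA t := hint.map (IsScalarTower.toAlgHom κA κB κ)
  set g := minpoly κA t with hg
  have hgsep : (g.map (algebraMap κA κD)).Separable :=
    ((minpoly.irreducible hintt).separable).map
  have hgt : aeval t (g.map (algebraMap κA κD)) = 0 := by
    rw [aeval_map_algebraMap]
    exact minpoly.aeval κA t
  obtain ⟨h2, hh2⟩ := minpoly.dvd κD t hgt
  obtain ⟨q, hq⟩ := minpoly.dvd κD t hpt
  have hh2t : aeval t h2 ≠ 0 := by
    intro h0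
    rw [hh2] at hgsep
    obtain ⟨a, b, hab⟩ := hgsep.isCoprime
    have h3 := congrArg (aeval t) hab
    rw [map_add, map_mul, map_mul, h0, minpoly.aeval, mul_zero, mul_zero, add_zero, map_one] at h3
    exact zero_ne_one h3
  obtain ⟨H2, hH2⟩ := Polynomial.map_surjective rD hrD h2
  obtain ⟨Q, hQ⟩ := Polynomial.map_surjective rD hrD q
  obtain ⟨G, hG⟩ := Polynomial.map_surjective rA hrA g
  have hGD : (G.map iAD).map rD = g.map (algebraMap κA κD) := by
    rw [← hG, Polynomial.map_map, Polynomial.map_map]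
    congr 1
    ext x
    exact sAD x
  have hW : (H2 * p - G.map iAD * Q).map rD = 0 := by
    rw [Polynomial.map_sub, Polynomial.map_mul, Polynomial.map_mul, hGD, hH2, hQ, hq, hh2]
    ring
  have hdvd : Polynomial.C v ∣ H2 * p - G.map iAD * Q := by
    rw [Polynomial.C_dvd_iff_dvd_coeff]
    intro i
    obtain ⟨y, hy⟩ := kD ((H2 * p - G.map iAD * Q).coeff i) (by
      rw [← Polynomial.coeff_map, hW, Polynomial.coeff_zero])
    exact ⟨y, hy⟩
  obtain ⟨p2, hp2⟩ := hdvd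
  have hev := congrArg (fun P => Polynomial.eval₂ iD (iB θ) P) hp2
  simp only [eval₂_sub, eval₂_mul, eval₂_C] at hev
  have hGB : ∃ y, (G.map iAD).eval₂ iD (iB θ) = iD v * y ∧ y ∈ C := by
    have h5 : (G.map iAD).eval₂ iD (iB θ) = iB (G.eval₂ iAB θ) := by
      rw [eval₂_map, hom_eval₂]
      congr 1
      ext x
      exact (hcomm x).symm
    have h6 : rB (G.eval₂ iAB θ) = 0 := by
      apply (algebraMap κB κ).injective
      rw [map_zero, hom_eval₂]
      have h7 : (rB.comp iAB) = (algebraMap κA κB).comp rA := by ext x; exact sAB x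
      rw [h7, ← eval₂_map, hG, hom_eval₂]
      have h8 : (algebraMap κB κ).comp (algebraMap κA κB) = algebraMap κA κ :=
        (IsScalarTower.algebraMap_eq κA κB κ).symm
      rw [h8]
      exact minpoly.aeval κA t
    obtain ⟨y, hy⟩ := kB _ h6
    obtain ⟨u', hu'⟩ := kD (iAD u) (by rw [sAD, hu, map_zero])
    refine ⟨iD u' * iB y, ?_, C.mul_mem (hDC _) (hBC _)⟩
    rw [h5, hy, map_mul, hcomm, hu', map_mul]
    ring
  obtain ⟨y, hy, hyC⟩ := hGB
  refine ⟨H2.eval₂ iD (iB θ), eval_mem iB iD H2 θ,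
    y * Q.eval₂ iD (iB θ) + p2.eval₂ iD (iB θ) + H2.eval₂ iD (iB θ) * c1, ?_, ?_, ?_⟩
  · exact C.add_mem (C.add_mem (C.mul_mem hyC (eval_mem iB iD Q θ)) (eval_mem iB iD p2 θ))
      (C.mul_mem (eval_mem iB iD H2 θ) hc1)
  · rw [eval_res iB iD rB rD r sB sD H2 θ, hH2]
    exact hh2t
  · rw [hz1]
    rw [hy] at hev
    linear_combination hev

end

end Pool.Agent.N628.PI
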