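import Pool.Agent.N194.PI.Stm
import Pool.Agent.N628.PI.Alg
import Pool.Agent.Helper386.D5V.Helper399_FF4a
import Pool.Agent.W828.PG.DIVI

/-!
# Project PI, leaf BASE (helper628): base change of unramified extensions of function fields
-/

set_option autoImplicit false
set_option linter.all false
set_option linter.overlappingInstances false

open FF Pool.Agent.W602.GT

namespace Pool.Agent.N628.PI

section

variable {k K L : Type} [Field k] [Field K] [Field L] [Algebra k K] [Algebra k L]
  [Algebra K L] [IsScalarTower k K L]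

/-- the homomorphism of the valuation rings -/
noncomputable def ovHom {w : Place k L} {v : Place k K} {e : ℕ} (h : Over w v e) : v.O →+* w.O :=
  ((algebraMap K L).comp v.O.subtype).codRestrict w.O (fun f => h.reg.2 f.2)

theorem ovHom_val {w : Place k L} {v : Place k K} {e : ℕ} (h : Over w v e) (x : v.O) :
    ((ovHom h x : w.O) : L) = algebraMap K L x := rfl

theorem ovHom_res {w : Place k L} {v : Place k K} {e : ℕ} (h : Over w v e) (x : v.O) :
    w.resHom (ovHom h x) = h.resMap (v.resHom x) := by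
  have h1 := h.resMap_red (f := (x : K)) x.2
  rw [v.red_of_reg x.2, w.red_of_reg (h.reg.2 x.2)] at h1
  exact h1.symm

theorem res_zero (P : Place k K) (x : P.O) : P.resHom x = 0 ↔ ((x : K) = 0 ∨ 0 < P.ord x) := by
  rw [← P.red_eq_zero_iff x.2, P.red_of_reg x.2]

theorem ker_dvd (P : Place k K) {t : P.O} (ht : P.ord t = 1) (x : P.O) (hx : P.resHom x = 0) :
    ∃ y : P.O, x = t * y := by
  rw [res_zero] at hx
  have ht0 : (t : K) ≠ 0 := by
    intro h0
    rw [h0, P.ord_zero] at ht
    exact zero_ne_one ht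
  by_cases hx0 : (x : K) = 0
  · exact ⟨0, Subtype.ext (by simpa using hx0)⟩
  · have h1 := hx.resolve_left hx0
    refine ⟨⟨(x : K) / t, Or.inr ?_⟩, Subtype.ext ?_⟩
    · rw [P.ord_div hx0 ht0, ht]
      omega
    · show (x : K) = t * (x / t)
      field_simp

theorem rf_finite [FiniteDimensional K L] {w : Place k L} {v : Place k K} {e : ℕ}
    (h : Over w v e) : @FiniteDimensional v.RF w.RF _ _ h.resMap.toRingHom.toAlgebra.toModule := by
  classical
  letI : Algebra v.RF w.RF := h.resMap.toRingHom.toAlgebra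
  have hmap : ∀ a : v.RF, algebraMap v.RF w.RF a = h.resMap a := fun a => rfl
  have key : Module.rank v.RF w.RF ≤ Module.finrank K L := by
    apply rank_le
    intro s hs
    choose F hF1 hF2 using w.red_surjective
    have hli : LinearIndependent K (fun i : s => F i) := by
      rw [linearIndependent_iff']
      intro t g hg i hi
      by_contra hgi
      have hne : (t.filter fun i => g i ≠ 0).Nonempty := ⟨i, by simp [hi, hgi]⟩
      obtain ⟨j, hj, hmin⟩ := Finset.exists_min_image _ (fun i => v.ord (g i)) hne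
      rw [Finset.mem_filter] at hj
      have hq : ∀ l ∈ t, v.Reg (g l / g j) := by
        intro l hl
        by_cases hl0 : g l = 0
        · rw [hl0, zero_div]; exact v.reg_zero
        · right
          rw [v.ord_div hl0 hj.2]
          have := hmin l (by rw [Finset.mem_filter]; exact ⟨hl, hl0⟩)
          linarith
      have h1 := Pool.Agent.W828.PG.red_sum w t (fun l => algebraMap K L (g l / g j) * F l)
        (fun l hl => w.reg_mul (h.reg.2 (hq l hl)) (hF1 _))
      have h2 : ∑ l ∈ t, algebraMap K L (g l / g j) * F l = 0 := by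
        have h3 : ∑ l ∈ t, algebraMap K L (g l / g j) * F l =
            (algebraMap K L (g j))⁻¹ * ∑ l ∈ t, g l • F l := by
          rw [Finset.mul_sum]
          refine Finset.sum_congr rfl fun l _ => ?_
          rw [map_div₀, Algebra.smul_def]
          ring
        rw [h3, hg, mul_zero]
      rw [h2, w.red_zero] at h1
      have h3 : ∑ l ∈ t, v.red (g l / g j) • (l : w.RF) = 0 := by
        rw [h1.2]
        refine Finset.sum_congr rfl fun l hl => ?_
        rw [w.red_mul (h.reg.2 (hq l hl)) (hF1 _), hF2, Algebra.smul_def, hmap,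
          h.resMap_red (hq l hl)]
      have h4 := (linearIndependent_iff'.1 hs) t (fun l => v.red (g l / g j)) h3 j hj.1
      rw [div_self hj.2, v.red_one] at h4
      exact one_ne_zero h4
    have := hli.fintype_card_le_finrank
    simpa using this
  exact Module.rank_lt_aleph0_iff.1 (lt_of_le_of_lt key (Cardinal.nat_lt_aleph0 _))

theorem exists_over' [Algebra.IsAlgebraic K L] (w : Place k L) :
    ∃ (e : ℕ) (v : Place k K), Over w v e := by
  refine exists_over w ?_
  by_contra hcon
  push Not at hcon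
  obtain ⟨t, -, ht⟩ := w.surj
  have h1 := Pool.Agent.W619.PQ.ord_eq_zero_of_alg (K0 := K) (K1 := L) (K2 := L) w hcon t
  rw [Algebra.algebraMap_self, RingHom.id_apply, ht] at h1
  exact one_ne_zero h1

end

theorem base : Pool.Agent.N194.PI.S_BASE := by
  intro L L' M M' _ _ _ _ _ _ _ _ _ _ _ _ _ _ _ _ _ _ _ _ _ _ n hadj hun Q hQ
  haveI : FiniteDimensional L M' := FiniteDimensional.trans L L' M'
  haveI : FiniteDimensional M M' := FiniteDimensional.right L M M'
  obtain ⟨e, Q', hQ'⟩ := exists_over' (K := L') Q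
  obtain ⟨f, R, hR⟩ := exists_over' (K := M) Q
  obtain ⟨e1, P, hP⟩ := exists_over' (K := L) Q'
  have hdiv : Divisorial n Q' := Pool.Agent.W828.PG.main ℂ L' M' n Q' Q e hQ' hQ
  obtain ⟨u, hu⟩ := hun Q' hdiv
  have he1 : (e1 : ℤ) * P.ord u = 1 := by rw [← hP.2, hu]
  have hu0 : u ≠ 0 := by
    rintro rfl
    rw [P.ord_zero, mul_zero] at he1
    exact zero_ne_one he1
  have hPu : P.ord u = 1 := by
    have h1 : (0 : ℤ) < e1 := by exact_mod_cast hP.1
    have h2 : P.ord u ∣ 1 := ⟨e1, by rw [← he1]; ring⟩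
    have h3 : 0 < P.ord u := by
      by_contra hcon
      have : (e1 : ℤ) * P.ord u ≤ 0 := mul_nonpos_of_nonneg_of_nonpos h1.le (not_lt.1 hcon)
      omega
    exact Int.eq_one_of_dvd_one h3.le h2
  have he1' : (e1 : ℤ) = 1 := by rw [hPu, mul_one] at he1; exact he1
  have hf0 : (0 : ℤ) < f := by exact_mod_cast hR.1
  have he0 : (0 : ℤ) < e := by exact_mod_cast hQ'.1
  -- the place `R` lies over `P`
  have htow : ∀ x : L, (f : ℤ) * R.ord (algebraMap L M x) = e * P.ord x := by
    intro x
    rw [← hR.2, ← IsScalarTower.algebraMap_apply, IsScalarTower.algebraMap_apply L L' M', hQ'.2,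
      hP.2, he1', one_mul]
  have hRu := htow u
  rw [hPu, mul_one] at hRu
  have hRu0 : 0 < R.ord (algebraMap L M u) := by
    by_contra hcon
    have : (f : ℤ) * R.ord (algebraMap L M u) ≤ 0 :=
      mul_nonpos_of_nonneg_of_nonpos hf0.le (not_lt.1 hcon)
    omega
  have hRP : Over R P (R.ord (algebraMap L M u)).toNat := by
    refine ⟨by omega, fun x => ?_⟩
    rw [Int.toNat_of_nonneg hRu0.le]
    have h1 := htow x
    rw [← hRu, mul_assoc] at h1
    exact mul_left_cancel₀ hf0.ne' h1
  -- algebras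
  letI iAB' : Algebra P.RF Q'.RF := hP.resMap.toRingHom.toAlgebra
  letI iAD' : Algebra P.RF R.RF := hRP.resMap.toRingHom.toAlgebra
  letI iB' : Algebra Q'.RF Q.RF := hQ'.resMap.toRingHom.toAlgebra
  letI iD' : Algebra R.RF Q.RF := hR.resMap.toRingHom.toAlgebra
  letI iA' : Algebra P.RF Q.RF := (hQ'.resMap.toRingHom.comp hP.resMap.toRingHom).toAlgebra
  haveI : IsScalarTower P.RF Q'.RF Q.RF := IsScalarTower.of_algebraMap_eq fun x => rfl
  haveI : IsScalarTower P.RF R.RF Q.RF := IsScalarTower.of_algebraMap_eq fun x => by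
    obtain ⟨l, hl, rfl⟩ := P.red_surjective x
    show hQ'.resMap (hP.resMap (P.red l)) = hR.resMap (hRP.resMap (P.red l))
    rw [hP.resMap_red hl, hQ'.resMap_red (hP.reg.2 hl), hRP.resMap_red hl,
      hR.resMap_red (hRP.reg.2 hl), ← IsScalarTower.algebraMap_apply,
      ← IsScalarTower.algebraMap_apply]
  haveI : FiniteDimensional P.RF Q'.RF := rf_finite hP
  haveI : CharZero P.RF := charZero_of_injective_algebraMap (algebraMap ℂ P.RF).injective
  obtain ⟨v, hv0, hv⟩ := R.surj
  set uO : P.O := ⟨u, Or.inr (by omega)⟩ with huO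
  set vO : R.O := ⟨v, Or.inr (by omega)⟩ with hvO
  have hstar := fun (z : Q.O) (hz : z ∈ (ovHom hR).range ⊔ (ovHom hQ').range)
      (hrz : Q.resHom z = 0) =>
    star (iAB := ovHom hP) (iAD := ovHom hRP) (iB := ovHom hQ') (iD := ovHom hR)
      (rA := P.resHom) (rB := Q'.resHom) (rD := R.resHom) (r := Q.resHom)
      (fun x => Subtype.ext (by
        rw [ovHom_val, ovHom_val, ovHom_val, ovHom_val, ← IsScalarTower.algebraMap_apply,
          ← IsScalarTower.algebraMap_apply]))
      (fun x => ovHom_res hP x) (fun x => ovHom_res hRP x) (fun x => ovHom_res hQ' x)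
      (fun x => ovHom_res hR x) P.resHom_surjective Q'.resHom_surjective R.resHom_surjective
      (u := uO) ((res_zero P uO).2 (Or.inr (by show 0 < P.ord u; omega)))
      (v := vO) ((res_zero R vO).2 (Or.inr (by show 0 < R.ord v; omega)))
      (fun x hx => ker_dvd Q' (t := ovHom hP uO) hu x hx)
      (fun x hx => ker_dvd R (t := vO) hv x hx) hz hrz
  set C : Subring Q.O := (ovHom hR).range ⊔ (ovHom hQ').range with hC
  have hDC : ∀ x, ovHom hR x ∈ C := fun x => (le_sup_left : (ovHom hR).range ≤ C) ⟨x, rfl⟩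
  have hBC : ∀ x, ovHom hQ' x ∈ C := fun x => (le_sup_right : (ovHom hQ').range ≤ C) ⟨x, rfl⟩
  -- the orders of the elements of `C` are multiples of `f`
  have hmul : ∀ m : ℕ, ∀ z : Q.O, z ∈ C → (z : M') ≠ 0 → Q.ord z = m → (f : ℤ) ∣ Q.ord z := by
    intro m
    induction m using Nat.strong_induction_on with
    | _ m ih =>
      intro z hz hz0 hm
      rcases Nat.eq_zero_or_pos m with rfl | hmp
      · rw [hm]; exact dvd_zero _
      obtain ⟨s, hs, c, hc, hrs, hsz⟩ := hstar z hz ((res_zero Q z).2 (Or.inr (by rw [hm]; exact_mod_cast hmp)))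
      have h1 := mt (res_zero Q s).2 hrs
      push Not at h1
      have h2 := (Q.reg_iff h1.1).1 s.2
      have h3 : Q.ord s = 0 := le_antisymm h1.2 h2
      have h4 : (s : M') * z = algebraMap M M' v * c := congrArg Subtype.val hsz
      have hv' : algebraMap M M' v ≠ 0 := by simpa using hv0
      have hc0 : (c : M') ≠ 0 := by
        intro h0
        rw [h0, mul_zero] at h4
        exact (mul_ne_zero h1.1 hz0) h4
      have h5 := congrArg Q.ord h4
      rw [Q.ord_mul h1.1 hz0, Q.ord_mul hv' hc0, hR.2, hv, h3, hm] at h5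
      have h6 := (Q.reg_iff hc0).1 c.2
      have h7 := ih (Q.ord c).toNat (by omega) c hc hc0 (by omega)
      rw [hm]
      have h8 : (m : ℤ) = f + Q.ord c := by linarith
      rw [h8]
      exact dvd_add (dvd_refl _) h7
  have hmul' : ∀ z : Q.O, z ∈ C → (z : M') ≠ 0 → (f : ℤ) ∣ Q.ord z := by
    intro z hz hz0
    have h1 := (Q.reg_iff hz0).1 z.2
    exact hmul (Q.ord z).toNat z hz hz0 (by omega)
  -- quotients
  have hquo : ∀ x : M', ∃ z w : Q.O, z ∈ C ∧ w ∈ C ∧ (w : M') ≠ 0 ∧ x * w = z := by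
    intro x
    have hx : x ∈ IntermediateField.adjoin M (Set.range (algebraMap L' M')) := by
      rw [hadj]; trivial
    have hD : ∀ m : M, ∃ z w : Q.O, z ∈ C ∧ w ∈ C ∧ (w : M') ≠ 0 ∧ algebraMap M M' m * w = z := by
      intro m
      by_cases hm : R.Reg m
      · exact ⟨ovHom hR ⟨m, hm⟩, 1, hDC _, C.one_mem, one_ne_zero, by
          show algebraMap M M' m * 1 = algebraMap M M' m
          rw [mul_one]⟩
      · have hm0 : m ≠ 0 := fun h0 => hm (Or.inl h0)
        have hmi : R.Reg m⁻¹ := by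
          right
          rw [R.ord_inv]
          have : ¬ 0 ≤ R.ord m := fun h => hm (Or.inr h)
          omega
        refine ⟨1, ovHom hR ⟨m⁻¹, hmi⟩, C.one_mem, hDC _, ?_, ?_⟩
        · show algebraMap M M' m⁻¹ ≠ 0
          simpa using hm0
        · show algebraMap M M' m * algebraMap M M' m⁻¹ = 1
          rw [← map_mul, mul_inv_cancel₀ hm0, map_one]
    have hB : ∀ m : L', ∃ z w : Q.O, z ∈ C ∧ w ∈ C ∧ (w : M') ≠ 0 ∧ algebraMap L' M' m * w = z := by
      intro m
      by_cases hm : Q'.Reg m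
      · exact ⟨ovHom hQ' ⟨m, hm⟩, 1, hBC _, C.one_mem, one_ne_zero, by
          show algebraMap L' M' m * 1 = algebraMap L' M' m
          rw [mul_one]⟩
      · have hm0 : m ≠ 0 := fun h0 => hm (Or.inl h0)
        have hmi : Q'.Reg m⁻¹ := by
          right
          rw [Q'.ord_inv]
          have : ¬ 0 ≤ Q'.ord m := fun h => hm (Or.inr h)
          omega
        refine ⟨1, ovHom hQ' ⟨m⁻¹, hmi⟩, C.one_mem, hBC _, ?_, ?_⟩
        · show algebraMap L' M' m⁻¹ ≠ 0
          simpa using hm0
        · show algebraMap L' M' m * algebraMap L' M' m⁻¹ = 1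
          rw [← map_mul, mul_inv_cancel₀ hm0, map_one]
    induction hx using IntermediateField.adjoin_induction with
    | mem x hx =>
      obtain ⟨m, rfl⟩ := hx
      exact hB m
    | algebraMap m => exact hD m
    | add x y _ _ hx hy =>
      obtain ⟨z1, w1, a1, a2, a3, a4⟩ := hx
      obtain ⟨z2, w2, b1, b2, b3, b4⟩ := hy
      refine ⟨z1 * w2 + z2 * w1, w1 * w2, C.add_mem (C.mul_mem a1 b2) (C.mul_mem b1 a2),
        C.mul_mem a2 b2, mul_ne_zero a3 b3, ?_⟩
      show (x + y) * ((w1 : M') * w2) = z1 * w2 + z2 * w1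
      rw [← a4, ← b4]
      ring
    | mul x y _ _ hx hy =>
      obtain ⟨z1, w1, a1, a2, a3, a4⟩ := hx
      obtain ⟨z2, w2, b1, b2, b3, b4⟩ := hy
      refine ⟨z1 * z2, w1 * w2, C.mul_mem a1 b1, C.mul_mem a2 b2, mul_ne_zero a3 b3, ?_⟩
      show (x * y) * ((w1 : M') * w2) = z1 * z2
      rw [← a4, ← b4]
      ring
    | inv x _ hx =>
      obtain ⟨z1, w1, a1, a2, a3, a4⟩ := hx
      by_cases hx0 : x = 0
      · exact ⟨0, 1, C.zero_mem, C.one_mem, one_ne_zero, by
          rw [hx0, inv_zero, zero_mul]; rfl⟩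
      · refine ⟨w1, z1, a2, a1, ?_, ?_⟩
        · rw [← a4]; exact mul_ne_zero hx0 a3
        · rw [← a4, ← mul_assoc, inv_mul_cancel₀ hx0, one_mul]
  obtain ⟨t, ht0, ht⟩ := Q.surj
  obtain ⟨z, w, hz, hw, hw0, hzw⟩ := hquo t
  have hz0 : (z : M') ≠ 0 := by rw [← hzw]; exact mul_ne_zero ht0 hw0
  have h1 := congrArg Q.ord hzw
  rw [Q.ord_mul ht0 hw0, ht] at h1
  have h2 : (f : ℤ) ∣ 1 := by
    have : (1 : ℤ) = Q.ord z - Q.ord w := by linarith
    rw [this]
    exact dvd_sub (hmul' z hz hz0) (hmul' w hw hw0)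
  have hf1 : (f : ℤ) = 1 := Int.eq_one_of_dvd_one hf0.le h2
  exact ⟨v, by rw [hR.2, hv, hf1, mul_one]⟩

end Pool.Agent.N628.PI
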